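import Mathlib

/-!
# The ray graph of the plane minus a compact set, and the horseshoe map

* `Sph` is the one-point compactification `ℝ² ∪ {∞}` of the plane, the 2-sphere.
* `IsRay C p g`: the continuous map `g : [0,1] → ℝ² ∪ {∞}` is a ray of `C ⊆ ℝ²` which ends at
  `p ∈ C`.
* `Ray C`: the rays; `Isotopic`: isotopy of rays (through rays with the same end point);
  `RayClass C`: the isotopy classes; `rayGraph C`: the ray graph.
* `rayIso f h`: the action of a homeomorphism `f` of the plane with `f(C) = C` on the ray graph.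
* `IsHorseshoe f`: `f` is a horseshoe map, `invSet f` its invariant set.
-/

set_option autoImplicit false

open scoped Topology unitInterval OnePoint

namespace Pool.Agent.Q193.RG

/-- The plane. -/
abbrev Plane : Type := ℝ × ℝ

/-- The 2-sphere, as the one-point compactification of the plane. -/
abbrev Sph : Type := OnePoint Plane

/-- `g` is a ray of `C` with end point `p ∈ C`: a simple arc in the sphere from `∞` to `p`, whose
interior lies in the plane minus `C`. -/
structure IsRay (C : Set Plane) (p : Plane) (g : C(I, Sph)) : Prop where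
  mem : p ∈ C
  inj : Function.Injective g
  zero : g 0 = ∞
  one : g 1 = (p : Sph)
  off : ∀ t : I, t ≠ 1 → ∀ q ∈ C, g t ≠ (q : Sph)

/-- A ray of `C`. -/
structure Ray (C : Set Plane) where
  /-- the end point -/
  pt : Plane
  /-- the arc, parametrised by the unit interval, starting at `∞` -/
  arc : C(I, Sph)
  isRay : IsRay C pt arc

variable {C : Set Plane}

/-- Two rays of `C` are isotopic if they have the same end point `p` and are joined by a
continuous family of rays of `C` with the end point `p`. -/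
def Isotopic (r s : Ray C) : Prop :=
  r.pt = s.pt ∧ ContinuousMap.HomotopicWith r.arc s.arc (IsRay C r.pt)

theorem Isotopic.refl (r : Ray C) : Isotopic r r :=
  ⟨rfl, ContinuousMap.HomotopicWith.refl _ r.isRay⟩

theorem Isotopic.symm {r s : Ray C} (h : Isotopic r s) : Isotopic s r := by
  refine ⟨h.1.symm, ?_⟩
  rw [← h.1]
  exact h.2.symm

theorem Isotopic.trans {r s t : Ray C} (h : Isotopic r s) (h' : Isotopic s t) : Isotopic r t := by
  refine ⟨h.1.trans h'.1, h.2.trans ?_⟩
  have := h'.2
  rwa [← h.1] at this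

/-- Isotopy of rays is an equivalence relation. -/
instance raySetoid (C : Set Plane) : Setoid (Ray C) where
  r := Isotopic
  iseqv := ⟨Isotopic.refl, Isotopic.symm, Isotopic.trans⟩

/-- The isotopy classes of the rays of `C`. -/
def RayClass (C : Set Plane) : Type := Quotient (raySetoid C)

/-- The ray graph: two distinct classes are joined by an edge if they have representatives which
meet only at `∞`. -/
def rayGraph (C : Set Plane) : SimpleGraph (RayClass C) where
  Adj v w := v ≠ w ∧ ∃ r s : Ray C, (Quotient.mk (raySetoid C) r : RayClass C) = v ∧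
    (Quotient.mk (raySetoid C) s : RayClass C) = w ∧
    Set.range r.arc ∩ Set.range s.arc = {∞}
  symm := ⟨fun v w h => by
    obtain ⟨hne, r, s, hr, hs, hd⟩ := h
    exact ⟨hne.symm, s, r, hs, hr, by rw [Set.inter_comm]; exact hd⟩⟩
  loopless := ⟨fun v h => h.1 rfl⟩

/-- The extension of a homeomorphism of the plane to the sphere, fixing `∞`. -/
noncomputable def ext (f : Plane ≃ₜ Plane) : Sph ≃ₜ Sph := f.onePointCongr

@[simp] theorem ext_infty (f : Plane ≃ₜ Plane) : ext f ∞ = ∞ := rfl

@[simp] theorem ext_coe (f : Plane ≃ₜ Plane) (p : Plane) : ext f (p : Sph) = (f p : Sph) := rfl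

theorem isRay_map {f : Plane ≃ₜ Plane} (hf : f '' C = C) {p : Plane} {g : C(I, Sph)}
    (hg : IsRay C p g) : IsRay C (f p) ((ext f : C(Sph, Sph)).comp g) where
  mem := by rw [← hf]; exact ⟨p, hg.mem, rfl⟩
  inj := (ext f).injective.comp hg.inj
  zero := by
    change ext f (g 0) = ∞
    rw [hg.zero]; rfl
  one := by
    change ext f (g 1) = _
    rw [hg.one]; rfl
  off := by
    intro t ht q hq h
    rw [← hf] at hq
    obtain ⟨q', hq', rfl⟩ := hq
    change ext f (g t) = (f q' : Sph) at h
    rw [← ext_coe] at h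
    exact hg.off t ht q' hq' ((ext f).injective h)

/-- The image of a ray under a homeomorphism `f` of the plane with `f(C) = C`. -/
noncomputable def mapRay (f : Plane ≃ₜ Plane) (hf : f '' C = C) (r : Ray C) : Ray C :=
  ⟨f r.pt, (ext f : C(Sph, Sph)).comp r.arc, isRay_map hf r.isRay⟩

theorem mapRay_isotopic (f : Plane ≃ₜ Plane) (hf : f '' C = C) {r s : Ray C}
    (h : Isotopic r s) : Isotopic (mapRay f hf r) (mapRay f hf s) := by
  obtain ⟨hp, ⟨H⟩⟩ := h
  refine ⟨congrArg f hp, ⟨?_⟩⟩
  refine
    { toFun := fun x => ext f (H x)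
      continuous_toFun := (ext f).continuous.comp H.continuous
      map_zero_left := fun x => ?_
      map_one_left := fun x => ?_
      prop' := fun t => ?_ }
  · simp [mapRay]
  · simp [mapRay]
  · exact isRay_map hf (H.prop t)

/-- The action of `f` on the isotopy classes of rays. -/
noncomputable def actFun (f : Plane ≃ₜ Plane) (hf : f '' C = C) : RayClass C → RayClass C :=
  Quotient.map (mapRay f hf) fun _ _ h => mapRay_isotopic f hf h

theorem image_symm {f : Plane ≃ₜ Plane} (hf : f '' C = C) : f.symm '' C = C := by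
  conv_lhs => rw [← hf]
  rw [← Set.image_comp]
  simp

theorem mapRay_symm_mapRay (f : Plane ≃ₜ Plane) (hf : f '' C = C) (r : Ray C) :
    mapRay f.symm (image_symm hf) (mapRay f hf r) = r := by
  obtain ⟨p, g, h⟩ := r
  simp only [mapRay]
  congr 1
  · simp
  · ext t
    change ext f.symm (ext f (g t)) = g t
    cases hx : g t using OnePoint.rec with
    | infty => rfl
    | coe x => simp

theorem mapRay_mapRay_symm (f : Plane ≃ₜ Plane) (hf : f '' C = C) (r : Ray C) :
    mapRay f hf (mapRay f.symm (image_symm hf) r) = r := by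
  obtain ⟨p, g, h⟩ := r
  simp only [mapRay]
  congr 1
  · simp
  · ext t
    change ext f (ext f.symm (g t)) = g t
    cases hx : g t using OnePoint.rec with
    | infty => rfl
    | coe x => simp

theorem adj_act (f : Plane ≃ₜ Plane) (hf : f '' C = C) (e : RayClass C ≃ RayClass C)
    (he : ∀ v, e v = actFun f hf v) {v w : RayClass C} (h : (rayGraph C).Adj v w) :
    (rayGraph C).Adj (e v) (e w) := by
  obtain ⟨hne, r, s, hr, hs, hd⟩ := h
  refine ⟨fun h => hne (e.injective h), mapRay f hf r, mapRay f hf s, ?_, ?_, ?_⟩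
  · rw [he, ← hr]; rfl
  · rw [he, ← hs]; rfl
  · change Set.range (ext f ∘ r.arc) ∩ Set.range (ext f ∘ s.arc) = {∞}
    rw [Set.range_comp, Set.range_comp, ← Set.image_inter (ext f).injective, hd]
    simp

/-- The action of `f` on the isotopy classes of rays is a bijection. -/
noncomputable def actEquiv (f : Plane ≃ₜ Plane) (hf : f '' C = C) : RayClass C ≃ RayClass C where
  toFun := actFun f hf
  invFun := actFun f.symm (image_symm hf)
  left_inv v := by
    induction v using Quotient.inductionOn with
    | h r =>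
      change (Quotient.mk (raySetoid C) (mapRay f.symm _ (mapRay f hf r)) : RayClass C) = _
      rw [mapRay_symm_mapRay]
  right_inv v := by
    induction v using Quotient.inductionOn with
    | h r =>
      change (Quotient.mk (raySetoid C) (mapRay f hf (mapRay f.symm _ r)) : RayClass C) = _
      rw [mapRay_mapRay_symm]

/-- The action on the ray graph of `C` of (the mapping class of) a homeomorphism `f` of the plane
with `f(C) = C`: the class of the ray `r` is mapped to the class of the ray `f(r)`. -/
noncomputable def rayIso (f : Plane ≃ₜ Plane) (hf : f '' C = C) : rayGraph C ≃g rayGraph C where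
  toEquiv := actEquiv f hf
  map_rel_iff' := by
    intro v w
    refine ⟨fun h => ?_, fun h => adj_act f hf (actEquiv f hf) (fun _ => rfl) h⟩
    have := adj_act f.symm (image_symm hf) (actEquiv f hf).symm (fun _ => rfl) h
    simpa using this

/-- The unit square `Q`. -/
def square : Set Plane := Set.Icc 0 1 ×ˢ Set.Icc 0 1

/-- `f` is a horseshoe map of the unit square `Q`. There are two disjoint horizontal strips
`H₀ = [0,1] × [a₀,b₀]`, `H₁ = [0,1] × [a₁,b₁]` (`H₁` above `H₀`) and two disjoint vertical strips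
`V₀ = [c₀,d₀] × [0,1]`, `V₁ = [c₁,d₁] × [0,1]` (`V₁` to the right of `V₀`) in `Q`; `f` maps `H₀`
onto `V₀` by an affine map which preserves the two directions of the axes, and `H₁` onto `V₁` by
an affine map which reverses both (in both cases it is contracting horizontally and expanding
vertically); `f` maps the rest of `Q` outside `Q`, and the part of `Q` between `H₀` and `H₁` is
mapped above `Q` (the fold of the horseshoe). -/
structure IsHorseshoe (f : Plane ≃ₜ Plane) (a₀ b₀ a₁ b₁ c₀ d₀ c₁ d₁ : ℝ) : Prop where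
  strips_h : 0 ≤ a₀ ∧ a₀ < b₀ ∧ b₀ < a₁ ∧ a₁ < b₁ ∧ b₁ ≤ 1
  strips_v : 0 ≤ c₀ ∧ c₀ < d₀ ∧ d₀ < c₁ ∧ c₁ < d₁ ∧ d₁ ≤ 1
  lower : ∀ x ∈ Set.Icc (0 : ℝ) 1, ∀ y ∈ Set.Icc a₀ b₀,
    f (x, y) = (c₀ + (d₀ - c₀) * x, (y - a₀) / (b₀ - a₀))
  upper : ∀ x ∈ Set.Icc (0 : ℝ) 1, ∀ y ∈ Set.Icc a₁ b₁,
    f (x, y) = (d₁ - (d₁ - c₁) * x, (b₁ - y) / (b₁ - a₁))
  rest : ∀ z ∈ square, z.2 ∉ Set.Icc a₀ b₀ → z.2 ∉ Set.Icc a₁ b₁ → f z ∉ square
  fold : ∀ z ∈ square, z.2 ∈ Set.Ioo b₀ a₁ → 1 < (f z).2

/-- The invariant set `Λ = ⋂ fⁿ(Q)`, `n ∈ ℤ`. -/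
def invSet (f : Plane ≃ₜ Plane) : Set Plane := ⋂ n : ℤ, (f ^ n : Plane ≃ₜ Plane) '' square

/-- A graph automorphism `g` of the ray graph is loxodromic if its stable translation length
`lim d(v, gⁿ v) / n` exists and is positive for every vertex `v`. -/
def IsLoxodromic {C : Set Plane} (g : rayGraph C ≃g rayGraph C) : Prop :=
  ∀ v : RayClass C, ∃ τ : ℝ, 0 < τ ∧
    Filter.Tendsto (fun n : ℕ => ((rayGraph C).dist v (g^[n] v) : ℝ) / n) Filter.atTop (𝓝 τ)

end Pool.Agent.Q193.RG
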