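import Pool.Agent.Q193.RG.Defs

/-!
# Horseshoe maps exist
-/

set_option autoImplicit false

open scoped Topology

namespace Pool.Agent.Q193.RG

/-- Clockwise rotation. -/
noncomputable def rot (θ : ℝ) (v : Plane) : Plane :=
  (v.1 * Real.cos θ + v.2 * Real.sin θ, -v.1 * Real.sin θ + v.2 * Real.cos θ)

/-- Euclidean length. -/
noncomputable def rad (v : Plane) : ℝ := Real.sqrt (v.1 ^ 2 + v.2 ^ 2)

theorem rad_rot (θ : ℝ) (v : Plane) : rad (rot θ v) = rad v := by
  unfold rad rot
  congr 1
  simp only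
  have := Real.sin_sq_add_cos_sq θ
  linear_combination (v.1 ^ 2 + v.2 ^ 2) * this

theorem rot_rot (θ : ℝ) (v : Plane) : rot (-θ) (rot θ v) = v := by
  unfold rot
  have := Real.sin_sq_add_cos_sq θ
  ext
  · simp only [Real.cos_neg, Real.sin_neg]
    linear_combination v.1 * this
  · simp only [Real.cos_neg, Real.sin_neg]
    linear_combination v.2 * this

theorem rot_rot' (θ : ℝ) (v : Plane) : rot θ (rot (-θ) v) = v := by
  have := rot_rot (-θ) v
  rwa [neg_neg] at this

/-- The angle. -/
noncomputable def ang (r : ℝ) : ℝ := Real.pi * max 0 (min 1 (2 - r))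

/-- A twist map. -/
noncomputable def twist : Plane ≃ₜ Plane where
  toFun v := rot (ang (rad v)) v
  invFun v := rot (-ang (rad v)) v
  left_inv v := by
    change rot (-ang (rad (rot (ang (rad v)) v))) (rot (ang (rad v)) v) = v
    rw [rad_rot, rot_rot]
  right_inv v := by
    change rot (ang (rad (rot (-ang (rad v)) v))) (rot (-ang (rad v)) v) = v
    rw [rad_rot, rot_rot']
  continuous_toFun := by
    unfold rot ang rad
    fun_prop
  continuous_invFun := by
    unfold rot ang rad
    fun_prop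

/-- A scaling and translation. -/
noncomputable def scale : Plane ≃ₜ Plane where
  toFun v := (v.1 / 4 - 1 / 2, 4 * v.2 - 7 / 2)
  invFun v := ((v.1 + 1 / 2) * 4, (v.2 + 7 / 2) / 4)
  left_inv v := by
    ext
    · simp only; ring
    · simp only; ring
  right_inv v := by
    ext
    · simp only; ring
    · simp only; ring
  continuous_toFun := by fun_prop
  continuous_invFun := by fun_prop

/-- A shear and translation. -/
noncomputable def shear : Plane ≃ₜ Plane where
  toFun v := (v.1 + 1 / 2, v.2 + 7 / 2 - 3 * max 0 (min 1 (4 * v.1)))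
  invFun v := (v.1 - 1 / 2, v.2 - 7 / 2 + 3 * max 0 (min 1 (4 * (v.1 - 1 / 2))))
  left_inv v := by
    ext
    · simp only; ring
    · simp only [add_sub_cancel_right]; ring
  right_inv v := by
    ext
    · simp only; ring
    · simp only; ring
  continuous_toFun := by fun_prop
  continuous_invFun := by fun_prop

/-- A horseshoe map. -/
noncomputable def hs : Plane ≃ₜ Plane := (scale.trans twist).trans shear

theorem twist_far {v : Plane} (h : 2 ≤ rad v) : twist v = v := by
  change rot (ang (rad v)) v = v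
  have : ang (rad v) = 0 := by
    unfold ang
    rw [max_eq_left, mul_zero]
    exact (min_le_right _ _).trans (by linarith)
  rw [this]
  unfold rot
  simp

theorem twist_near {v : Plane} (h : rad v ≤ 1) : twist v = (-v.1, -v.2) := by
  change rot (ang (rad v)) v = _
  have : ang (rad v) = Real.pi := by
    unfold ang
    rw [min_eq_left (by linarith), max_eq_right zero_le_one, mul_one]
  rw [this]
  unfold rot
  simp

theorem abs_snd_le_rad (v : Plane) : |v.2| ≤ rad v := by
  unfold rad
  rw [← Real.sqrt_sq_eq_abs]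
  exact Real.sqrt_le_sqrt (by nlinarith [sq_nonneg v.1])

theorem hs_isHorseshoe : IsHorseshoe hs 0 (1 / 4) (3 / 4) 1 0 (1 / 4) (3 / 4) 1 := by
  have hfold : ∀ z ∈ square, z.2 ∈ Set.Ioo (1 / 4 : ℝ) (3 / 4) → 1 < (hs z).2 := by
    rintro z ⟨⟨hx0, hx1⟩, hy0, hy1⟩ ⟨h1, h2⟩
    change 1 < (shear (twist (z.1 / 4 - 1 / 2, 4 * z.2 - 7 / 2))).2
    set v : Plane := (z.1 / 4 - 1 / 2, 4 * z.2 - 7 / 2) with hv
    have hv1 : v.1 = z.1 / 4 - 1 / 2 := rfl
    have hv2 : v.2 = 4 * z.2 - 7 / 2 := rfl
    change 1 < (twist v).2 + 7 / 2 - 3 * max 0 (min 1 (4 * (twist v).1))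
    rcases le_or_gt (twist v).1 0 with h | h
    · rw [max_eq_left ((min_le_right _ _).trans (by linarith)), mul_zero, sub_zero]
      rcases le_or_gt 2 (rad v) with h3 | h3
      · rw [twist_far h3]
        linarith
      · have h4 : rad (twist v) = rad v := rad_rot _ _
        have h5 := abs_snd_le_rad (twist v)
        rw [h4] at h5
        have h6 := (abs_le.1 h5).1
        linarith
    · have h7 : max 0 (min 1 (4 * (twist v).1)) ≤ 1 := max_le zero_le_one (min_le_left _ _)
      suffices h8 : 1 / 2 < (twist v).2 by linarith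
      -- the rotated point
      have ht : twist v = (v.1 * Real.cos (ang (rad v)) + v.2 * Real.sin (ang (rad v)),
        -v.1 * Real.sin (ang (rad v)) + v.2 * Real.cos (ang (rad v))) := rfl
      have hθ0 : 0 ≤ ang (rad v) := mul_nonneg Real.pi_pos.le (le_max_left _ _)
      have hθ1 : ang (rad v) ≤ Real.pi := by
        have : max 0 (min 1 (2 - rad v)) ≤ 1 := max_le zero_le_one (min_le_left _ _)
        calc ang (rad v) ≤ Real.pi * 1 := mul_le_mul_of_nonneg_left this Real.pi_pos.le
          _ = Real.pi := mul_one _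
      set θ := ang (rad v)
      have hs0 : 0 ≤ Real.sin θ := Real.sin_nonneg_of_nonneg_of_le_pi hθ0 hθ1
      rw [ht] at h ⊢
      change 0 < v.1 * Real.cos θ + v.2 * Real.sin θ at h
      change 1 / 2 < -v.1 * Real.sin θ + v.2 * Real.cos θ
      set C := Real.cos θ
      set S := Real.sin θ
      have hCS : S ^ 2 + C ^ 2 = 1 := Real.sin_sq_add_cos_sq θ
      have hvn1 : v.1 < 0 := by linarith
      have hvn2 : v.2 < -(1 / 2) := by linarith
      have hC : C < 0 := by nlinarith
      have hC1 : -1 ≤ C := Real.neg_one_le_cos θ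
      -- `0 < x' ≤ -v.1`
      have hx' : v.1 * C + v.2 * S ≤ -v.1 := by nlinarith
      have hy' : 0 < -v.1 * S + v.2 * C := by nlinarith
      have hsum : (v.1 * C + v.2 * S) ^ 2 + (-v.1 * S + v.2 * C) ^ 2 = v.1 ^ 2 + v.2 ^ 2 := by
        linear_combination (v.1 ^ 2 + v.2 ^ 2) * hCS
      nlinarith
  refine ⟨⟨le_rfl, by norm_num, by norm_num, by norm_num, le_rfl⟩,
    ⟨le_rfl, by norm_num, by norm_num, by norm_num, le_rfl⟩, ?_, ?_, ?_, hfold⟩
  · rintro x ⟨hx0, hx1⟩ y ⟨hy0, hy1⟩
    change shear (twist (x / 4 - 1 / 2, 4 * y - 7 / 2)) = _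
    rw [twist_far]
    · change (x / 4 - 1 / 2 + 1 / 2, 4 * y - 7 / 2 + 7 / 2 - 3 * max 0 (min 1
        (4 * (x / 4 - 1 / 2)))) = _
      rw [max_eq_left ((min_le_right _ _).trans (by linarith))]
      ext
      · simp only; ring
      · simp only; ring
    · have := abs_snd_le_rad (x / 4 - 1 / 2, 4 * y - 7 / 2)
      have h2 := neg_le_abs (4 * y - 7 / 2)
      simp only at this
      linarith
  · rintro x ⟨hx0, hx1⟩ y ⟨hy0, hy1⟩
    change shear (twist (x / 4 - 1 / 2, 4 * y - 7 / 2)) = _
    rw [twist_near]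
    · change (-(x / 4 - 1 / 2) + 1 / 2, -(4 * y - 7 / 2) + 7 / 2 - 3 * max 0 (min 1
        (4 * (-(x / 4 - 1 / 2))))) = _
      rw [min_eq_left (by linarith), max_eq_right zero_le_one]
      ext
      · simp only; ring
      · simp only; ring
    · unfold rad
      rw [Real.sqrt_le_left zero_le_one]
      simp only
      nlinarith
  · intro z hz h1 h2 h3
    have h4 : z.2 ∈ Set.Ioo (1 / 4 : ℝ) (3 / 4) := by
      obtain ⟨-, h5, h6⟩ := hz
      constructor
      · by_contra h; exact h1 ⟨h5, not_lt.1 h⟩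
      · by_contra h; exact h2 ⟨not_lt.1 h, h6⟩
    have := hfold z hz h4
    exact absurd h3.2.2 (not_le.2 this)

end Pool.Agent.Q193.RG
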