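import Pool.Agent.Q193.RG.Push

/-!
# The horseshoe map fixes the class of a ray
-/

set_option autoImplicit false

open scoped Topology unitInterval OnePoint
open Filter

namespace Pool.Agent.Q193.RG

theorem mem_invSet {f : Plane ≃ₜ Plane} {z : Plane} :
    z ∈ invSet f ↔ ∀ n : ℤ, (f ^ n : Plane ≃ₜ Plane) z ∈ square := by
  simp only [invSet, Set.mem_iInter]
  constructor
  · intro h n
    obtain ⟨w, hw, hwz⟩ := h (-n)
    have : (f ^ n : Plane ≃ₜ Plane) z = w := by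
      rw [← hwz, ← Homeomorph.mul_apply, ← zpow_add]; simp
    rwa [this]
  · intro h n
    refine ⟨(f ^ (-n) : Plane ≃ₜ Plane) z, h (-n), ?_⟩
    rw [← Homeomorph.mul_apply, ← zpow_add]; simp

theorem map_mem_invSet {f : Plane ≃ₜ Plane} {z : Plane} (hz : z ∈ invSet f) :
    f z ∈ invSet f := by
  rw [mem_invSet] at hz ⊢
  intro n
  have := hz (n + 1)
  rwa [zpow_add_one, Homeomorph.mul_apply] at this

theorem symm_mem_invSet {f : Plane ≃ₜ Plane} {z : Plane} (hz : z ∈ invSet f) :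
    f.symm z ∈ invSet f := by
  rw [mem_invSet] at hz ⊢
  intro n
  have := hz (n - 1)
  rw [zpow_sub_one, Homeomorph.mul_apply] at this
  exact this

theorem image_invSet (f : Plane ≃ₜ Plane) : f '' invSet f = invSet f := by
  apply Set.Subset.antisymm
  · rintro _ ⟨z, hz, rfl⟩
    exact map_mem_invSet hz
  · intro z hz
    exact ⟨f.symm z, symm_mem_invSet hz, by simp⟩

theorem invSet_subset_square {f : Plane ≃ₜ Plane} {z : Plane} (hz : z ∈ invSet f) :
    z ∈ square := by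
  have := (mem_invSet.1 hz) 0
  simpa using this

theorem fixed_mem_invSet {f : Plane ≃ₜ Plane} {z : Plane} (hz : z ∈ square) (hf : f z = z) :
    z ∈ invSet f := by
  rw [mem_invSet]
  have hsymm : f.symm z = z := by rw [Homeomorph.symm_apply_eq, hf]
  have hnat : ∀ n : ℕ, (f ^ n : Plane ≃ₜ Plane) z = z := by
    intro n
    induction n with
    | zero => rfl
    | succ n ih => rw [pow_succ, Homeomorph.mul_apply, hf, ih]
  intro n
  obtain ⟨n, rfl | rfl⟩ := n.eq_nat_or_neg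
  · rw [zpow_natCast, hnat]; exact hz
  · rw [zpow_neg, zpow_natCast]
    have : ((f ^ n)⁻¹ : Plane ≃ₜ Plane) z = z := by
      change (f ^ n : Plane ≃ₜ Plane).symm z = z
      rw [Homeomorph.symm_apply_eq, hnat]
    rw [this]; exact hz

section horseshoe

variable {f : Plane ≃ₜ Plane} {a₀ b₀ a₁ b₁ c₀ d₀ c₁ d₁ : ℝ}

/-- The first coordinate of the fixed point. -/
noncomputable def fx (c₀ d₀ : ℝ) : ℝ := c₀ / (1 - (d₀ - c₀))

theorem fx_eq {c₀ d₀ : ℝ} (h : d₀ - c₀ < 1) : c₀ + (d₀ - c₀) * fx c₀ d₀ = fx c₀ d₀ := by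
  have : 1 - (d₀ - c₀) ≠ 0 := by linarith
  rw [fx]
  field_simp
  ring

theorem fx_nonneg {c₀ d₀ : ℝ} (h : d₀ - c₀ < 1) (hc : 0 ≤ c₀) : 0 ≤ fx c₀ d₀ :=
  div_nonneg hc (by linarith)

theorem fx_le_one {c₀ d₀ : ℝ} (h : d₀ - c₀ < 1) (hd : d₀ ≤ 1) : fx c₀ d₀ ≤ 1 := by
  rw [fx, div_le_one (by linarith)]
  linarith

theorem fx_mem {c₀ d₀ : ℝ} (h : d₀ - c₀ < 1) (h0 : 0 ≤ c₀) (h1 : c₀ < d₀) (hd : d₀ ≤ 1) :
    fx c₀ d₀ ∈ Set.Icc c₀ d₀ := by
  have h2 := fx_eq h
  have h3 := fx_nonneg h h0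
  have h4 := fx_le_one h hd
  constructor <;> nlinarith

variable (hf : IsHorseshoe f a₀ b₀ a₁ b₁ c₀ d₀ c₁ d₁)

include hf

theorem IsHorseshoe.strip {z : Plane} (hz : z ∈ square) (hfz : f z ∈ square) :
    z.2 ∈ Set.Icc a₀ b₀ ∨ z.2 ∈ Set.Icc a₁ b₁ := by
  by_contra h
  rw [not_or] at h
  exact hf.rest z hz h.1 h.2 hfz

theorem IsHorseshoe.lower' {z : Plane} (hz : z ∈ square) (h : z.2 ∈ Set.Icc a₀ b₀) :
    f z = (c₀ + (d₀ - c₀) * z.1, (z.2 - a₀) / (b₀ - a₀)) :=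
  hf.lower z.1 hz.1 z.2 h

theorem IsHorseshoe.upper' {z : Plane} (hz : z ∈ square) (h : z.2 ∈ Set.Icc a₁ b₁) :
    f z = (d₁ - (d₁ - c₁) * z.1, (b₁ - z.2) / (b₁ - a₁)) :=
  hf.upper z.1 hz.1 z.2 h

theorem IsHorseshoe.x_ge {z : Plane} (hz : z ∈ invSet f) : fx c₀ d₀ ≤ z.1 := by
  obtain ⟨h1, h2, h3, h4, h5⟩ := hf.strips_v
  have hα : d₀ - c₀ < 1 := by linarith
  have hx := fx_eq hα
  have hx2 := fx_mem hα h1 h2 (by linarith)
  set x₀ := fx c₀ d₀ with hx₀
  have key : ∀ n : ℕ, ∀ z ∈ invSet f, x₀ - (d₀ - c₀) ^ n * x₀ ≤ z.1 := by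
    intro n
    induction n with
    | zero =>
      intro z hz
      have := (invSet_subset_square hz).1.1
      simpa using this
    | succ n ih =>
      intro z hz
      have hw := symm_mem_invSet hz
      have hfw : f (f.symm z) = z := by simp
      have hwn := ih _ hw
      rcases hf.strip (invSet_subset_square hw) (by rw [hfw]; exact invSet_subset_square hz)
        with h | h
      · have h' := hf.lower' (invSet_subset_square hw) h
        rw [hfw] at h'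
        rw [h']
        change _ ≤ c₀ + (d₀ - c₀) * (f.symm z).1
        have : (d₀ - c₀) * (x₀ - (d₀ - c₀) ^ n * x₀) ≤ (d₀ - c₀) * (f.symm z).1 :=
          mul_le_mul_of_nonneg_left hwn (by linarith)
        calc x₀ - (d₀ - c₀) ^ (n + 1) * x₀
            = (c₀ + (d₀ - c₀) * x₀) - (d₀ - c₀) ^ (n + 1) * x₀ := by rw [hx]
          _ = c₀ + (d₀ - c₀) * (x₀ - (d₀ - c₀) ^ n * x₀) := by ring
          _ ≤ _ := by linarith
      · have h' := hf.upper' (invSet_subset_square hw) h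
        rw [hfw] at h'
        rw [h']
        change _ ≤ d₁ - (d₁ - c₁) * (f.symm z).1
        have hw1 := (invSet_subset_square hw).1.2
        have : (d₁ - c₁) * (f.symm z).1 ≤ (d₁ - c₁) * 1 :=
          mul_le_mul_of_nonneg_left hw1 (by linarith)
        have h6 : 0 ≤ (d₀ - c₀) ^ (n + 1) * x₀ := by
          apply mul_nonneg (pow_nonneg (by linarith) _)
          linarith [hx2.1]
        linarith [hx2.2]
  have hlim : Tendsto (fun n : ℕ => x₀ - (d₀ - c₀) ^ n * x₀) atTop (𝓝 (x₀ - 0 * x₀)) := by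
    refine tendsto_const_nhds.sub (Tendsto.mul_const _ ?_)
    exact tendsto_pow_atTop_nhds_zero_of_lt_one (by linarith) hα
  rw [zero_mul, sub_zero] at hlim
  exact le_of_tendsto' hlim fun n => key n z hz

theorem IsHorseshoe.y_ge {z : Plane} (hz : z ∈ invSet f) : fx a₀ b₀ ≤ z.2 := by
  obtain ⟨h1, h2, h3, h4, h5⟩ := hf.strips_h
  have hα : b₀ - a₀ < 1 := by linarith
  have hx := fx_eq hα
  have hx2 := fx_mem hα h1 h2 (by linarith)
  set y₀ := fx a₀ b₀ with hy₀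
  have key : ∀ n : ℕ, ∀ z ∈ invSet f, y₀ - (b₀ - a₀) ^ n * y₀ ≤ z.2 := by
    intro n
    induction n with
    | zero =>
      intro z hz
      have := (invSet_subset_square hz).2.1
      simpa using this
    | succ n ih =>
      intro z hz
      have hw := map_mem_invSet hz
      have hwn := ih _ hw
      rcases hf.strip (invSet_subset_square hz) (invSet_subset_square hw) with h | h
      · have h' := hf.lower' (invSet_subset_square hz) h
        rw [h'] at hwn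
        change _ ≤ (z.2 - a₀) / (b₀ - a₀) at hwn
        rw [le_div_iff₀ (by linarith)] at hwn
        calc y₀ - (b₀ - a₀) ^ (n + 1) * y₀
            = (a₀ + (b₀ - a₀) * y₀) - (b₀ - a₀) ^ (n + 1) * y₀ := by rw [hx]
          _ = a₀ + (y₀ - (b₀ - a₀) ^ n * y₀) * (b₀ - a₀) := by ring
          _ ≤ _ := by linarith
      · have h6 : 0 ≤ (b₀ - a₀) ^ (n + 1) * y₀ := by
          apply mul_nonneg (pow_nonneg (by linarith) _)
          linarith [hx2.1]
        linarith [hx2.2, h.1]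
  have hlim : Tendsto (fun n : ℕ => y₀ - (b₀ - a₀) ^ n * y₀) atTop (𝓝 (y₀ - 0 * y₀)) := by
    refine tendsto_const_nhds.sub (Tendsto.mul_const _ ?_)
    exact tendsto_pow_atTop_nhds_zero_of_lt_one (by linarith) hα
  rw [zero_mul, sub_zero] at hlim
  exact le_of_tendsto' hlim fun n => key n z hz

theorem IsHorseshoe.y_le {z : Plane} (hz : z ∈ invSet f) : z.2 ≤ b₁ := by
  obtain ⟨h1, h2, h3, h4, h5⟩ := hf.strips_h
  rcases hf.strip (invSet_subset_square hz) (invSet_subset_square (map_mem_invSet hz)) with h | h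
  · linarith [h.2]
  · exact h.2

/-- The fixed point. -/
theorem IsHorseshoe.map_fix : f (fx c₀ d₀, fx a₀ b₀) = (fx c₀ d₀, fx a₀ b₀) := by
  obtain ⟨h1, h2, h3, h4, h5⟩ := hf.strips_h
  obtain ⟨g1, g2, g3, g4, g5⟩ := hf.strips_v
  have hx := fx_mem (by linarith : d₀ - c₀ < 1) g1 g2 (by linarith)
  have hy := fx_mem (by linarith : b₀ - a₀ < 1) h1 h2 (by linarith)
  rw [hf.lower _ ⟨by linarith [hx.1], by linarith [hx.2]⟩ _ hy]
  rw [fx_eq (by linarith : d₀ - c₀ < 1)]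
  congr 1
  have := fx_eq (by linarith : b₀ - a₀ < 1)
  rw [div_eq_iff (by linarith)]
  linarith

theorem IsHorseshoe.fix_mem : (fx c₀ d₀, fx a₀ b₀) ∈ invSet f := by
  obtain ⟨h1, h2, h3, h4, h5⟩ := hf.strips_h
  obtain ⟨g1, g2, g3, g4, g5⟩ := hf.strips_v
  have hx := fx_mem (by linarith : d₀ - c₀ < 1) g1 g2 (by linarith)
  have hy := fx_mem (by linarith : b₀ - a₀ < 1) h1 h2 (by linarith)
  refine fixed_mem_invSet ⟨⟨?_, ?_⟩, ?_, ?_⟩ hf.map_fix
  · linarith [hx.1]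
  · linarith [hx.2]
  · linarith [hy.1]
  · linarith [hy.2]

theorem IsHorseshoe.box_out {z : Plane} (hz : z ∈ box (fx c₀ d₀) 1 (fx a₀ b₀) b₁) :
    fx c₀ d₀ < (f z).1 ∨ fx a₀ b₀ < (f z).2 := by
  obtain ⟨h1, h2, h3, h4, h5⟩ := hf.strips_h
  obtain ⟨g1, g2, g3, g4, g5⟩ := hf.strips_v
  have hx := fx_mem (by linarith : d₀ - c₀ < 1) g1 g2 (by linarith)
  have hy := fx_mem (by linarith : b₀ - a₀ < 1) h1 h2 (by linarith)
  have hxe := fx_eq (by linarith : d₀ - c₀ < 1)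
  obtain ⟨⟨hz1, hz2⟩, hz3, hz4⟩ := hz
  have hsq : z ∈ square :=
    ⟨⟨by linarith [hx.1], hz2.le⟩, by linarith [hy.1], by linarith⟩
  rcases le_or_gt z.2 b₀ with h | h
  · left
    rw [hf.lower' hsq ⟨by linarith [hy.1], h⟩]
    change _ < c₀ + (d₀ - c₀) * z.1
    nlinarith
  rcases lt_or_ge z.2 a₁ with h' | h'
  · right
    have := hf.fold z hsq ⟨h, h'⟩
    linarith [hy.2]
  · left
    rw [hf.upper' hsq ⟨h', hz4.le⟩]
    change _ < d₁ - (d₁ - c₁) * z.1
    have : (d₁ - c₁) * z.1 ≤ (d₁ - c₁) * 1 := mul_le_mul_of_nonneg_left hz2.le (by linarith)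
    linarith [hx.2]

end horseshoe

end Pool.Agent.Q193.RG
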