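import Pool.Agent.Q193.RG.Geo

/-!
# A ray which avoids the bounding box is isotopic to the diagonal ray
-/

set_option autoImplicit false

open scoped Topology unitInterval OnePoint
open Filter

namespace Pool.Agent.Q193.RG

section push

variable {x₀ x₁ y₀ y₁ : ℝ} {C : Set Plane}

theorem notMem_const_box (t : I) : ∀ z ∈ box x₀ x₁ y₀ y₁,
    (ContinuousMap.const I (((x₀, y₀) : Plane) : Sph)) t ≠ (z : Sph) := by
  intro z hz h
  simp only [ContinuousMap.const_apply, OnePoint.coe_eq_coe] at h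
  rw [← h] at hz
  exact lt_irrefl _ hz.1.1

/-- The diagonal ray, from `∞` to the lower left corner of the box. -/
noncomputable def diag (hx : x₀ < x₁) (hy : y₀ < y₁) : C(I, Sph) where
  toFun u := push (ctr x₀ x₁ y₀ y₁) (ContinuousMap.const I (((x₀, y₀) : Plane) : Sph)) 0 u
  continuous_toFun := by
    have h1 := continuous_push hx hy (ContinuousMap.const I (((x₀, y₀) : Plane) : Sph))
      notMem_const_box
    have h2 : Continuous fun u : I => ((0 : I), u) := by fun_prop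
    exact h1.comp h2

theorem diag_apply (hx : x₀ < x₁) (hy : y₀ < y₁) (u : I) (hu : 0 < (u : ℝ)) :
    diag hx hy u = ((ctr x₀ x₁ y₀ y₁ + (u : ℝ)⁻¹ • (((x₀, y₀) : Plane) - ctr x₀ x₁ y₀ y₁) :
      Plane) : Sph) := by
  change push _ _ 0 u = _
  rw [push_ge _ _ u.2.1 hu]
  rfl

theorem diag_zero (hx : x₀ < x₁) (hy : y₀ < y₁) : diag hx hy 0 = ∞ :=
  push_zero_zero _ _

theorem push_zero (hx : x₀ < x₁) (hy : y₀ < y₁) (g : C(I, Sph))
    (h1 : g 1 = (((x₀, y₀) : Plane) : Sph)) (u : I) :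
    push (ctr x₀ x₁ y₀ y₁) g 0 u = diag hx hy u := by
  rcases u.2.1.eq_or_lt with h | h
  · have : u = 0 := Subtype.ext h.symm
    rw [this, diag_zero]
    exact push_zero_zero _ _
  · rw [push_ge _ _ u.2.1 h, diag_apply hx hy u h, h1]
    rfl

theorem diag_fst (hx : x₀ < x₁) (u : ℝ) (hu : 0 < u) (hu1 : u ≤ 1) :
    (ctr x₀ x₁ y₀ y₁ + u⁻¹ • (((x₀, y₀) : Plane) - ctr x₀ x₁ y₀ y₁)).1 ≤ x₀ := by
  have h1 : (1 : ℝ) ≤ u⁻¹ := (one_le_inv₀ hu).2 hu1
  change (x₀ + x₁) / 2 + u⁻¹ * (x₀ - (x₀ + x₁) / 2) ≤ x₀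
  nlinarith

theorem diag_fst_lt (hx : x₀ < x₁) (u : ℝ) (hu : 0 < u) (hu1 : u < 1) :
    (ctr x₀ x₁ y₀ y₁ + u⁻¹ • (((x₀, y₀) : Plane) - ctr x₀ x₁ y₀ y₁)).1 < x₀ := by
  have h1 : (1 : ℝ) < u⁻¹ := (one_lt_inv₀ hu).2 hu1
  change (x₀ + x₁) / 2 + u⁻¹ * (x₀ - (x₀ + x₁) / 2) < x₀
  nlinarith

theorem diag_snd (hy : y₀ < y₁) (u : ℝ) (hu : 0 < u) (hu1 : u ≤ 1) :
    (ctr x₀ x₁ y₀ y₁ + u⁻¹ • (((x₀, y₀) : Plane) - ctr x₀ x₁ y₀ y₁)).2 ≤ y₀ := by
  have h1 : (1 : ℝ) ≤ u⁻¹ := (one_le_inv₀ hu).2 hu1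
  change (y₀ + y₁) / 2 + u⁻¹ * (y₀ - (y₀ + y₁) / 2) ≤ y₀
  nlinarith

theorem ctr_ne (hx : x₀ < x₁) : ((x₀, y₀) : Plane) - ctr x₀ x₁ y₀ y₁ ≠ 0 := by
  intro h
  have : x₀ - (x₀ + x₁) / 2 = 0 := congrArg Prod.fst h
  linarith

theorem diag_injective (hx : x₀ < x₁) (hy : y₀ < y₁) : Function.Injective (diag hx hy) := by
  intro u v h
  rcases u.2.1.eq_or_lt with hu | hu
  · have hu0 : u = 0 := Subtype.ext hu.symm
    rcases v.2.1.eq_or_lt with hv | hv
    · rw [hu0]; exact Subtype.ext hv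
    · rw [hu0, diag_zero, diag_apply hx hy v hv] at h
      exact absurd h.symm (OnePoint.coe_ne_infty _)
  · rcases v.2.1.eq_or_lt with hv | hv
    · have hv0 : v = 0 := Subtype.ext hv.symm
      rw [hv0, diag_zero, diag_apply hx hy u hu] at h
      exact absurd h (OnePoint.coe_ne_infty _)
    · rw [diag_apply hx hy v hv, diag_apply hx hy u hu, OnePoint.coe_eq_coe,
        add_right_inj] at h
      have h2 := smul_left_injective ℝ (ctr_ne (y₀ := y₀) (y₁ := y₁) hx) h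
      exact Subtype.ext (inv_injective h2)

/-- The point `c + s (q - c)`, `0 ≤ s < 1`, is in the open box if `q` is in the closed box. -/
theorem mem_box_of_lt (hx : x₀ < x₁) (hy : y₀ < y₁) {q : Plane}
    (hq : q ∈ Set.Icc x₀ x₁ ×ˢ Set.Icc y₀ y₁) {s : ℝ} (hs0 : 0 ≤ s) (hs : s < 1) :
    ctr x₀ x₁ y₀ y₁ + s • (q - ctr x₀ x₁ y₀ y₁) ∈ box x₀ x₁ y₀ y₁ := by
  obtain ⟨⟨h1, h2⟩, h3, h4⟩ := hq
  refine ⟨⟨?_, ?_⟩, ?_, ?_⟩
  · change x₀ < (x₀ + x₁) / 2 + s * (q.1 - (x₀ + x₁) / 2)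
    nlinarith
  · change (x₀ + x₁) / 2 + s * (q.1 - (x₀ + x₁) / 2) < x₁
    nlinarith
  · change y₀ < (y₀ + y₁) / 2 + s * (q.2 - (y₀ + y₁) / 2)
    nlinarith
  · change (y₀ + y₁) / 2 + s * (q.2 - (y₀ + y₁) / 2) < y₁
    nlinarith

theorem isRay_diag (hx : x₀ < x₁) (hy : y₀ < y₁) (hC : C ⊆ Set.Icc x₀ x₁ ×ˢ Set.Icc y₀ y₁)
    (hp : ((x₀, y₀) : Plane) ∈ C) : IsRay C (x₀, y₀) (diag hx hy) where
  mem := hp
  inj := diag_injective hx hy
  zero := diag_zero hx hy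
  one := by
    rw [diag_apply hx hy 1 (by simp)]
    simp
  off := by
    intro u hu q hq h
    rcases u.2.1.eq_or_lt with h0 | h0
    · have : u = 0 := Subtype.ext h0.symm
      rw [this, diag_zero] at h
      exact OnePoint.coe_ne_infty _ h.symm
    · rw [diag_apply hx hy u h0, OnePoint.coe_eq_coe] at h
      have h1 : (u : ℝ) < 1 := lt_of_le_of_ne u.2.2 fun h => hu (Subtype.ext h)
      have h2 := diag_fst_lt (y₀ := y₀) (y₁ := y₁) hx u h0 h1
      rw [h] at h2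
      exact absurd (hC hq).1.1 (not_le.2 h2)

theorem dil_eq_coe {c : Plane} {m : ℝ} (hm : 0 < m) {z : Sph} {q : Plane}
    (h : dil c m z = (q : Sph)) : z = ((c + m • (q - c) : Plane) : Sph) := by
  cases z using OnePoint.rec with
  | infty => exact absurd h.symm (OnePoint.coe_ne_infty _)
  | coe x =>
    rw [dil_coe, OnePoint.coe_eq_coe] at h
    rw [OnePoint.coe_eq_coe, ← h]
    rw [add_sub_cancel_left, smul_smul, mul_inv_cancel₀ hm.ne', one_smul]
    simp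

theorem isRay_push (hx : x₀ < x₁) (hy : y₀ < y₁) (hC : C ⊆ Set.Icc x₀ x₁ ×ˢ Set.Icc y₀ y₁)
    {g : C(I, Sph)} (hg : IsRay C (x₀, y₀) g)
    (hbox : ∀ t, ∀ z ∈ box x₀ x₁ y₀ y₁, g t ≠ (z : Sph)) (t : I) (G : C(I, Sph))
    (hG : ∀ u : I, G u = push (ctr x₀ x₁ y₀ y₁) g t u) : IsRay C (x₀, y₀) G := by
  have hp := hg.mem
  rcases t.2.1.eq_or_lt with ht | ht
  · -- `t = 0`
    have : G = diag hx hy := by
      ext u
      rw [hG, ← ht]
      exact push_zero hx hy g hg.one u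
    rw [this]
    exact isRay_diag hx hy hC hp
  -- values
  have hle : ∀ u : I, ∀ h : (u : ℝ) ≤ t, G u = dil (ctr x₀ x₁ y₀ y₁) t
      (g ⟨u / t, div_nonneg u.2.1 ht.le, by rwa [div_le_one ht]⟩) := by
    intro u h
    rw [hG]
    exact push_le _ _ h ht u.2.1
  have hge : ∀ u : I, (t : ℝ) ≤ u → G u = diag hx hy u := by
    intro u h
    have hu : 0 < (u : ℝ) := lt_of_lt_of_le ht h
    rw [hG, push_ge _ _ h hu, diag_apply hx hy u hu, hg.one]
    rfl
  have hcross : ∀ u v : I, (u : ℝ) ≤ t → (t : ℝ) < v → G u ≠ G v := by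
    intro u v hu hv h
    have hv0 : 0 < (v : ℝ) := ht.trans hv
    rw [hle u hu, hge v hv.le, diag_apply hx hy v hv0] at h
    have h2 := dil_eq_coe ht h
    rw [add_sub_cancel_left, smul_smul] at h2
    refine hbox _ _ ?_ h2
    apply mem_box_of_lt hx hy (hC hp)
    · positivity
    · rw [← div_eq_mul_inv, div_lt_one hv0]; exact hv
  refine ⟨hp, ?_, ?_, ?_, ?_⟩
  · intro u v h
    rcases le_or_gt (u : ℝ) t with hu | hu
    · rcases le_or_gt (v : ℝ) t with hv | hv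
      · rw [hle u hu, hle v hv] at h
        have h2 := hg.inj (dil_injective _ ht.ne' h)
        have h3 : (u : ℝ) / t = v / t := congrArg Subtype.val h2
        rw [div_left_inj' ht.ne'] at h3
        exact Subtype.ext h3
      · exact absurd h (hcross u v hu hv)
    · rcases le_or_gt (v : ℝ) t with hv | hv
      · exact absurd h.symm (hcross v u hv hu)
      · rw [hge u hu.le, hge v hv.le] at h
        exact diag_injective hx hy h
  · rw [hle 0 ht.le]
    have : (⟨((0 : I) : ℝ) / t, div_nonneg (0 : I).2.1 ht.le, by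
        rw [div_le_one ht]; exact ht.le⟩ : I) = 0 := Subtype.ext (by simp)
    rw [this, hg.zero]
    rfl
  · rw [hge 1 t.2.2]
    exact (isRay_diag hx hy hC hp).one
  · intro u hu q hq h
    rcases le_or_gt (u : ℝ) t with hut | hut
    · rw [hle u hut] at h
      have h2 := dil_eq_coe ht h
      rcases t.2.2.eq_or_lt with ht1 | ht1
      · have hqq : ctr x₀ x₁ y₀ y₁ + (t : ℝ) • (q - ctr x₀ x₁ y₀ y₁) = q := by
          rw [ht1, one_smul, add_sub_cancel]
        rw [hqq] at h2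
        refine hg.off _ ?_ q hq h2
        intro h3
        have h4 : (u : ℝ) / t = 1 := congrArg Subtype.val h3
        rw [ht1, div_one] at h4
        exact hu (Subtype.ext h4)
      · refine hbox _ _ ?_ h2
        exact mem_box_of_lt hx hy (hC hq) ht.le ht1
    · rw [hge u hut.le] at h
      exact (isRay_diag hx hy hC hp).off u hu q hq h

/-- Alexander's trick. -/
theorem homotopicWith_diag (hx : x₀ < x₁) (hy : y₀ < y₁)
    (hC : C ⊆ Set.Icc x₀ x₁ ×ˢ Set.Icc y₀ y₁)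
    {g : C(I, Sph)} (hg : IsRay C (x₀, y₀) g)
    (hbox : ∀ t, ∀ z ∈ box x₀ x₁ y₀ y₁, g t ≠ (z : Sph)) :
    ContinuousMap.HomotopicWith (diag hx hy) g (IsRay C (x₀, y₀)) := by
  refine ⟨{ toFun := fun x => push (ctr x₀ x₁ y₀ y₁) g x.1 x.2
            continuous_toFun := continuous_push hx hy g hbox
            map_zero_left := fun u => ?_
            map_one_left := fun u => ?_
            prop' := fun t => ?_ }⟩
  · exact push_zero hx hy g hg.one u
  · exact push_one _ g u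
  · exact isRay_push hx hy hC hg hbox t _ fun u => rfl

end push

end Pool.Agent.Q193.RG
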