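import Pool.Agent.Q193.RG.Defs

/-!
# Pushing an arc to infinity (Alexander's trick for arcs)
-/

set_option autoImplicit false

open scoped Topology unitInterval OnePoint
open Filter

namespace Pool.Agent.Q193.RG

/-- A continuous function on the sphere which vanishes exactly at `∞`. -/
noncomputable def phi (c : Plane) (z : Sph) : ℝ :=
  OnePoint.elim z 0 (fun z : Plane => 1 / (1 + ‖z - c‖))

@[simp] theorem phi_infty (c : Plane) : phi c ∞ = 0 := rfl

@[simp] theorem phi_coe (c z : Plane) : phi c (z : Sph) = 1 / (1 + ‖z - c‖) := rfl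

theorem phi_nonneg (c : Plane) (z : Sph) : 0 ≤ phi c z := by
  cases z using OnePoint.rec with
  | infty => simp
  | coe x => rw [phi_coe]; positivity

theorem tendsto_infty_of_phi {α : Type*} {l : Filter α} {F : α → Sph} (c : Plane)
    (h : Tendsto (fun a => phi c (F a)) l (𝓝 0)) : Tendsto F l (𝓝 ∞) := by
  rw [(OnePoint.hasBasis_nhds_infty).tendsto_right_iff]
  rintro s ⟨-, hs⟩
  obtain ⟨R, hR⟩ := hs.isBounded.subset_closedBall c
  have hR0 : 0 < 1 / (1 + max R 0) := by
    have : 0 ≤ max R 0 := le_max_right _ _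
    positivity
  filter_upwards [(tendsto_order.1 h).2 _ hR0] with a ha
  cases hx : F a using OnePoint.rec with
  | infty => right; rfl
  | coe x =>
    left
    refine ⟨x, fun hxs => ?_, rfl⟩
    rw [hx, phi_coe] at ha
    have h1 := hR hxs
    rw [Metric.mem_closedBall, dist_eq_norm] at h1
    have h2 : ‖x - c‖ ≤ max R 0 := h1.trans (le_max_left _ _)
    have h3 : 1 / (1 + max R 0) ≤ 1 / (1 + ‖x - c‖) := by
      apply one_div_le_one_div_of_le
      · positivity
      · linarith
    linarith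

theorem continuous_phi (c : Plane) : Continuous (phi c) := by
  rw [continuous_iff_continuousAt]
  intro z
  cases z using OnePoint.rec with
  | infty =>
    rw [OnePoint.continuousAt_infty']
    rw [coclosedCompact_eq_cocompact]
    change Tendsto (fun z : Plane => 1 / (1 + ‖z - c‖)) _ (𝓝 0)
    have h1 : Tendsto (fun z : Plane => ‖z - c‖) (cocompact Plane) atTop := by
      have := tendsto_norm_cocompact_atTop (E := Plane)
      refine tendsto_atTop_mono (f := fun z : Plane => ‖z‖ - ‖c‖) (fun z => norm_sub_norm_le z c) ?_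
      exact tendsto_atTop_add_const_right _ _ this
    have h2 : Tendsto (fun z : Plane => 1 + ‖z - c‖) (cocompact Plane) atTop :=
      tendsto_atTop_add_const_left _ _ h1
    have h3 := h2.inv_tendsto_atTop
    refine h3.congr fun z => ?_
    simp
  | coe x =>
    rw [OnePoint.continuousAt_coe]
    change ContinuousAt (fun z : Plane => 1 / (1 + ‖z - c‖)) x
    have : (1 + ‖x - c‖) ≠ 0 := by positivity
    fun_prop (disch := assumption)

/-- The dilation with centre `c` and factor `1 / m`. -/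
noncomputable def dil (c : Plane) (m : ℝ) (z : Sph) : Sph :=
  OnePoint.elim z ∞ (fun z : Plane => ((c + m⁻¹ • (z - c) : Plane) : Sph))

@[simp] theorem dil_infty (c : Plane) (m : ℝ) : dil c m ∞ = ∞ := rfl

@[simp] theorem dil_coe (c : Plane) (m : ℝ) (z : Plane) :
    dil c m (z : Sph) = ((c + m⁻¹ • (z - c) : Plane) : Sph) := rfl

theorem dil_one (c : Plane) (z : Sph) : dil c 1 z = z := by
  cases z using OnePoint.rec with
  | infty => rfl
  | coe x => simp

theorem dil_injective (c : Plane) {m : ℝ} (hm : m ≠ 0) : Function.Injective (dil c m) := by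
  intro z w h
  cases z using OnePoint.rec with
  | infty =>
    cases w using OnePoint.rec with
    | infty => rfl
    | coe y => simp at h
  | coe x =>
    cases w using OnePoint.rec with
    | infty => simp at h
    | coe y =>
      simp only [dil_coe, OnePoint.coe_eq_coe, add_right_inj] at h
      have := smul_right_injective Plane (inv_ne_zero hm) h
      simpa using this

theorem phi_dil_le (c : Plane) {m : ℝ} (hm : 0 < m) (hm1 : m ≤ 1) (z : Sph) :
    phi c (dil c m z) ≤ phi c z := by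
  cases z using OnePoint.rec with
  | infty => simp
  | coe x =>
    simp only [dil_coe, phi_coe, add_sub_cancel_left, norm_smul, norm_inv, Real.norm_eq_abs,
      abs_of_pos hm]
    apply one_div_le_one_div_of_le
    · positivity
    · have h1 : (1 : ℝ) ≤ m⁻¹ := (one_le_inv₀ hm).2 hm1
      have h2 : 0 ≤ ‖x - c‖ := norm_nonneg _
      nlinarith

theorem phi_dil_le' (c : Plane) {m ρ : ℝ} (hm : 0 < m) (hρ : 0 < ρ) (z : Sph)
    (hz : ∀ x : Plane, z = (x : Sph) → ρ ≤ ‖x - c‖) :
    phi c (dil c m z) ≤ m / ρ := by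
  cases z using OnePoint.rec with
  | infty => rw [dil_infty, phi_infty]; positivity
  | coe x =>
    simp only [dil_coe, phi_coe, add_sub_cancel_left, norm_smul, norm_inv, Real.norm_eq_abs,
      abs_of_pos hm]
    have h1 := hz x rfl
    have h2 : ρ / m ≤ 1 + m⁻¹ * ‖x - c‖ := by
      rw [div_eq_inv_mul]
      have : m⁻¹ * ρ ≤ m⁻¹ * ‖x - c‖ := mul_le_mul_of_nonneg_left h1 (by positivity)
      linarith
    calc 1 / (1 + m⁻¹ * ‖x - c‖) ≤ 1 / (ρ / m) := one_div_le_one_div_of_le (by positivity) h2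
      _ = m / ρ := by rw [one_div_div]

theorem continuousAt_dil (c : Plane) {m : ℝ} (hm : 0 < m) (z : Sph)
    (l : Filter (ℝ × Sph)) (hl : l ≤ 𝓝 (m, z)) (hl1 : ∀ᶠ x in l, x.1 ≤ 1) :
    Tendsto (fun x : ℝ × Sph => dil c x.1 x.2) l (𝓝 (dil c m z)) := by
  cases z using OnePoint.rec with
  | infty =>
    rw [dil_infty]
    apply tendsto_infty_of_phi c
    have h1 : Tendsto (fun x : ℝ × Sph => phi c x.2) l (𝓝 0) := by
      have : Tendsto (fun x : ℝ × Sph => phi c x.2) (𝓝 (m, ∞)) (𝓝 (phi c ∞)) :=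
        ((continuous_phi c).comp continuous_snd).tendsto _
      exact this.mono_left hl
    have hpos : ∀ᶠ x : ℝ × Sph in l, 0 < x.1 :=
      hl ((continuous_fst.tendsto (m, (∞ : Sph))).eventually (lt_mem_nhds hm))
    refine squeeze_zero' (Eventually.of_forall fun x => phi_nonneg _ _) ?_ h1
    filter_upwards [hpos, hl1] with x hx hx1
    exact phi_dil_le c hx hx1 x.2
  | coe y =>
    refine Tendsto.mono_left ?_ hl
    rw [nhds_prod_eq, OnePoint.nhds_coe_eq]
    have : (𝓝 m ×ˢ map ((↑) : Plane → Sph) (𝓝 y)) =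
        map (fun x : ℝ × Plane => (x.1, (x.2 : Sph))) (𝓝 m ×ˢ 𝓝 y) := by
      conv_lhs => rw [← map_id (f := 𝓝 m)]
      rw [prod_map_map_eq]; rfl
    rw [this, tendsto_map'_iff]
    change Tendsto (fun x : ℝ × Plane => ((c + x.1⁻¹ • (x.2 - c) : Plane) : Sph)) _ _
    rw [dil_coe, ← nhds_prod_eq]
    have hm' : m ≠ 0 := hm.ne'
    have h2 : ContinuousAt (fun x : ℝ × Plane => c + x.1⁻¹ • (x.2 - c)) (m, y) := by
      apply ContinuousAt.add continuousAt_const
      exact (continuousAt_fst.inv₀ hm').smul (continuousAt_snd.sub continuousAt_const)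
    exact (OnePoint.continuous_coe.tendsto _).comp h2

/-- The open rectangle. -/
def box (x₀ x₁ y₀ y₁ : ℝ) : Set Plane := Set.Ioo x₀ x₁ ×ˢ Set.Ioo y₀ y₁

/-- Its centre. -/
noncomputable def ctr (x₀ x₁ y₀ y₁ : ℝ) : Plane := ((x₀ + x₁) / 2, (y₀ + y₁) / 2)

/-- The pushed arc. -/
noncomputable def push (c : Plane) (g : C(I, Sph)) (t u : ℝ) : Sph :=
  if max t u = 0 then ∞ else dil c (max t u) (g (Set.projIcc (0 : ℝ) 1 zero_le_one (u / max t u)))

theorem norm_ge_of_notMem_box {x₀ x₁ y₀ y₁ : ℝ} {z : Plane} (hz : z ∉ box x₀ x₁ y₀ y₁) :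
    min ((x₁ - x₀) / 2) ((y₁ - y₀) / 2) ≤ ‖z - ctr x₀ x₁ y₀ y₁‖ := by
  by_contra h
  rw [not_le] at h
  apply hz
  rw [Prod.norm_def, max_lt_iff] at h
  obtain ⟨h1, h2⟩ := h
  have h1' := h1.trans_le (min_le_left _ _)
  have h2' := h2.trans_le (min_le_right _ _)
  simp only [ctr, Prod.fst_sub, Prod.snd_sub, Real.norm_eq_abs, abs_lt] at h1' h2'
  refine ⟨⟨?_, ?_⟩, ?_, ?_⟩ <;> linarith [h1'.1, h1'.2, h2'.1, h2'.2]

theorem continuous_push {x₀ x₁ y₀ y₁ : ℝ} (hx : x₀ < x₁) (hy : y₀ < y₁) (g : C(I, Sph))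
    (hg : ∀ t, ∀ z ∈ box x₀ x₁ y₀ y₁, g t ≠ (z : Sph)) :
    Continuous (fun x : I × I => push (ctr x₀ x₁ y₀ y₁) g x.1 x.2) := by
  set c := ctr x₀ x₁ y₀ y₁
  rw [continuous_iff_continuousAt]
  rintro ⟨t, u⟩
  have hmcont : Continuous (fun x : I × I => max (x.1 : ℝ) (x.2 : ℝ)) := by fun_prop
  have hm1 : ∀ x : I × I, max (x.1 : ℝ) (x.2 : ℝ) ≤ 1 := fun x => max_le x.1.2.2 x.2.2.2
  have hm0 : ∀ x : I × I, 0 ≤ max (x.1 : ℝ) (x.2 : ℝ) := fun x => le_max_of_le_left x.1.2.1
  rcases (hm0 (t, u)).eq_or_lt with h0 | hpos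
  · -- the corner
    have hval : push c g t u = ∞ := by
      simp only [push]
      rw [if_pos]
      exact h0.symm
    change Tendsto _ _ (𝓝 (push c g t u))
    rw [hval]
    apply tendsto_infty_of_phi c
    set ρ := min ((x₁ - x₀) / 2) ((y₁ - y₀) / 2)
    have hρ : 0 < ρ := lt_min (by linarith) (by linarith)
    have hlim : Tendsto (fun x : I × I => max (x.1 : ℝ) (x.2 : ℝ) / ρ) (𝓝 (t, u)) (𝓝 0) := by
      have := (hmcont.div_const ρ).tendsto (t, u)
      simp only at h0 this
      rw [← h0, zero_div] at this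
      exact this
    refine squeeze_zero (fun x => phi_nonneg _ _) (fun x => ?_) hlim
    simp only [push]
    split_ifs with h
    · rw [h]; simp
    · have hp : 0 < max (x.1 : ℝ) (x.2 : ℝ) := lt_of_le_of_ne (hm0 x) (Ne.symm h)
      refine phi_dil_le' c hp hρ _ fun z hz => ?_
      exact norm_ge_of_notMem_box fun hzb => hg _ z hzb hz
  · have hne : ∀ᶠ x : I × I in 𝓝 (t, u), 0 < max (x.1 : ℝ) (x.2 : ℝ) :=
      (hmcont.tendsto (t, u)).eventually (lt_mem_nhds hpos)
    have hval : push c g t u = dil c (max (t : ℝ) u)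
        (g (Set.projIcc (0 : ℝ) 1 zero_le_one (u / max (t : ℝ) u))) := by
      simp only [push]
      rw [if_neg]
      exact hpos.ne'
    change Tendsto _ _ (𝓝 (push c g t u))
    rw [hval]
    have hkey : Tendsto (fun x : I × I => (max (x.1 : ℝ) (x.2 : ℝ),
        g (Set.projIcc (0 : ℝ) 1 zero_le_one ((x.2 : ℝ) / max (x.1 : ℝ) (x.2 : ℝ)))))
        (𝓝 (t, u)) (𝓝 (max (t : ℝ) u,
          g (Set.projIcc (0 : ℝ) 1 zero_le_one (u / max (t : ℝ) u)))) := by
      refine Tendsto.prodMk_nhds (hmcont.tendsto (t, u)) ?_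
      refine (g.continuous.comp continuous_projIcc).continuousAt.tendsto.comp ?_
      refine Tendsto.div ?_ (hmcont.tendsto (t, u)) hpos.ne'
      exact (continuous_subtype_val.comp continuous_snd).tendsto (t, u)
    have h3 := (continuousAt_dil c hpos
      (g (Set.projIcc (0 : ℝ) 1 zero_le_one (u / max (t : ℝ) u)))
      (Filter.map (fun x : I × I => (max (x.1 : ℝ) (x.2 : ℝ),
        g (Set.projIcc (0 : ℝ) 1 zero_le_one ((x.2 : ℝ) / max (x.1 : ℝ) (x.2 : ℝ)))))
        (𝓝 (t, u))) hkey (by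
          rw [eventually_map]
          exact Eventually.of_forall hm1))
    rw [tendsto_map'_iff] at h3
    refine h3.congr' ?_
    filter_upwards [hne] with x hx
    simp only [push, Function.comp]
    rw [if_neg hx.ne']

theorem push_one (c : Plane) (g : C(I, Sph)) (u : I) : push c g 1 u = g u := by
  have h1 : max (1 : ℝ) (u : ℝ) = 1 := max_eq_left u.2.2
  simp only [push, h1]
  rw [if_neg one_ne_zero, dil_one, div_one]
  congr 1
  exact Set.projIcc_val zero_le_one u

theorem push_ge (c : Plane) (g : C(I, Sph)) {t u : ℝ} (h : t ≤ u) (hu : 0 < u) :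
    push c g t u = dil c u (g 1) := by
  have h1 : max t u = u := max_eq_right h
  simp only [push, h1]
  rw [if_neg hu.ne', div_self hu.ne']
  congr 2
  exact Set.projIcc_right (zero_le_one' ℝ)

theorem push_le (c : Plane) (g : C(I, Sph)) {t u : ℝ} (h : u ≤ t) (ht : 0 < t) (hu : 0 ≤ u) :
    push c g t u = dil c t (g ⟨u / t, by positivity, by rwa [div_le_one ht]⟩) := by
  have h1 : max t u = t := max_eq_left h
  simp only [push, h1]
  rw [if_neg ht.ne']
  congr 2
  exact Set.projIcc_of_mem (zero_le_one' ℝ)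
    (show u / t ∈ Set.Icc (0 : ℝ) 1 from ⟨by positivity, by rwa [div_le_one ht]⟩)

theorem push_zero_zero (c : Plane) (g : C(I, Sph)) : push c g 0 0 = ∞ := by
  simp [push]

end Pool.Agent.Q193.RG
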